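import Mathlib
import Pool.Agent.H96.WA5

open MeasureTheory Filter Topology Polynomial
open Pool.Agent.H96.WA

namespace Pool.Agent.Results.MP_467fc0_an.Yes

theorem result (l : ℕ) (hl : 2 ≤ l) (p : Fin l → ℤ[X]) (h1 : ∀ i, 0 < (p i).natDegree)
    (h2 : ∀ i j, i ≠ j → 0 < (p i - p j).natDegree)
    (D : ℕ) (A : Matrix (Fin D) (Fin D) ℤ) (b : Fin D → UnitAddCircle)
    (T : Equiv.Perm (Fin D → UnitAddCircle)) (hA : IsNilpotent (A - 1))
    (hT : ∀ x i, T x i = ∑ j, A i j • x j + b i) :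
    ∀ Z : MeasurableSpace (Fin D → UnitAddCircle), Z ≤ MeasurableSpace.pi →
      (∀ g : (Fin D → UnitAddCircle) → ℂ, MemLp g ⊤ (haar D) → (haar D)[g | Z] =ᵐ[haar D] 0 →
        hk (haar D) T (l - 1) g = 0) →
      Char (haar D) T p Z := by
  obtain ⟨k, rfl⟩ : ∃ k, l = k + 2 := ⟨l - 2, by omega⟩
  obtain ⟨u, W⟩ := exWy hA hT
  refine fun Z hZ H f hf =>
    W.tele hf (fun i => (hf i).condExp le_top) fun K hK j e => W.main h1 h2 hK j (H _ (hK j) ?_)
  rw [e]
  refine (condExp_sub ((hf j).integrable le_top) integrable_condExp Z).trans ?_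
  rw [condExp_of_stronglyMeasurable hZ stronglyMeasurable_condExp integrable_condExp, sub_self]

end Pool.Agent.Results.MP_467fc0_an.Yes
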